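import Mathlib
import Pool.Agent.Lib.MP_56e792_co.S.Stf

set_option autoImplicit false

namespace Pool.Agent.Results.MP_56e792_co.LargeCliques

open Pool.Agent.Lib.MP_56e792_co

/-- **Structure of large cliques of generalized Paley graphs of order `q ^ 2` in a fixed
characteristic.**  Let `p` be a prime, `d ≥ 2` and `δ > 0`. There is a constant `K` such that for
every `q = p ^ n` with `d ∣ q + 1` and every field `F` with `q ^ 2` elements: every clique of
`GP(q ^ 2, d)`, maximal or not, with at least `δ q` vertices has all but `K` of its vertices on one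
line `{v + t w : t ^ q = t}` or on one circle `{c : (c - o) ^ (q + 1) = ρ}` of the affine plane
over the subfield of order `q`. -/
theorem result :
    ∀ (p d : ℕ), p.Prime → 2 ≤ d → ∀ δ : ℝ, 0 < δ → ∃ K : ℕ, ∀ n : ℕ, d ∣ p ^ n + 1 →
      ∀ (F : Type) (_ : Field F), Nat.card F = (p ^ n) ^ 2 → ∀ C : Finset F,
        (SimpleGraph.fromRel (fun a b : F => ∃ z : F, z ^ d = a - b)).IsClique (C : Set F) →
        δ * (p : ℝ) ^ n ≤ (C.card : ℝ) →
          (∃ v w : F, w ≠ 0 ∧
            Set.ncard {c : F | c ∈ C ∧ ¬ ∃ t : F, t ^ p ^ n = t ∧ c = v + t * w} ≤ K) ∨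
          ∃ o ρ : F, ρ ≠ 0 ∧ ρ ^ p ^ n = ρ ∧
            Set.ncard {c : F | c ∈ C ∧ (c - o) ^ (p ^ n + 1) ≠ ρ} ≤ K := by
  intro p d hp hd δ hδ
  obtain ⟨K, h⟩ := GPC.struct_F p d hp hd δ hδ
  exact ⟨K, fun n hn F _ hF C hC hs => h n hn F hF C hC hs⟩

end Pool.Agent.Results.MP_56e792_co.LargeCliques
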