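import Mathlib
import Pool.Agent.Lib.MP_56e792_co.GP
import Pool.Agent.Lib.MP_56e792_co.S.Lim
import Pool.Agent.Lib.MP_56e792_co.S.Fcl

set_option autoImplicit false

namespace Pool.Agent.Results.MP_56e792_co.LimitSet

open Pool.Agent.Lib.MP_56e792_co

/-- **The limit points of `|C| / q` over the maximal cliques of generalized Paley graphs.**

(1) Along the powers of one prime `p` the set of limit points is exactly
`{0} ∪ {1, 1 / d, 1 / d ^ 2, …}`.

(2) For every `d` there is a function `N` on the primes such that every limit point in the sense of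
the problem (all prime powers) is in this set, or it is smaller than `1 / d` and all but finitely
many of the prime powers `q k` have the form `p ^ n` with `n < N p`. -/
theorem result :
    (∀ (p d n₀ : ℕ), p.Prime → 2 ≤ d → 1 ≤ n₀ → d ∣ p ^ n₀ + 1 → ∀ x : ℝ,
      ((∃ (q : ℕ → ℕ) (F : ℕ → Type) (_ : ∀ k, Field (F k)) (C : ∀ k, Finset (F k)),
          StrictMono q ∧ (∀ k, ∃ n, q k = p ^ n) ∧ (∀ k, d ∣ q k + 1) ∧
          (∀ k, Nat.card (F k) = q k ^ 2) ∧
          (∀ k, Maximal (fun s : Finset (F k) =>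
              (SimpleGraph.fromRel (fun a b : F k => ∃ z : F k, z ^ d = a - b)).IsClique
                (s : Set (F k))) (C k)) ∧
          Filter.Tendsto (fun k => ((C k).card : ℝ) / (q k : ℝ)) Filter.atTop (nhds x))
        ↔ (x = 0 ∨ ∃ j : ℕ, x = 1 / (d : ℝ) ^ j))) ∧
    (∀ d : ℕ, 2 ≤ d → ∃ N : ℕ → ℕ, ∀ (x : ℝ) (q : ℕ → ℕ) (F : ℕ → Type)
        (_ : ∀ k, Field (F k)) (C : ∀ k, Finset (F k)),
      StrictMono q → (∀ k, d ∣ q k + 1) → (∀ k, Nat.card (F k) = q k ^ 2) →
      (∀ k, Maximal (fun s : Finset (F k) =>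
          (SimpleGraph.fromRel (fun a b : F k => ∃ z : F k, z ^ d = a - b)).IsClique
            (s : Set (F k))) (C k)) →
      Filter.Tendsto (fun k => ((C k).card : ℝ) / (q k : ℝ)) Filter.atTop (nhds x) →
        (x = 0 ∨ ∃ j : ℕ, x = 1 / (d : ℝ) ^ j) ∨
          (x < 1 / (d : ℝ) ∧ {k | ∃ p n : ℕ, p.Prime ∧ N p ≤ n ∧ q k = p ^ n}.Finite)) := by
  refine ⟨?_, ?_⟩
  · intro p d n₀ hp hd hn₀ hdvd x
    constructor
    · rintro ⟨q, F, inst, C, hmono, hpow, hdv, hcard, hC, hlim⟩
      exact GPC.lim_p p d hp hd x q F inst C hmono hdv hcard hC hlim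
        (Filter.Frequently.of_forall hpow)
    · intro hx
      exact GPC.ex_p p d n₀ hp hd hn₀ hdvd x hx
  · intro d hd
    obtain ⟨N, hN⟩ := GPC.lim_N d hd
    refine ⟨N, ?_⟩
    intro x q F inst C hmono hdv hcard hC hlim
    by_cases hx : x = 0 ∨ ∃ j : ℕ, x = 1 / (d : ℝ) ^ j
    · exact Or.inl hx
    · refine Or.inr ⟨?_, ?_⟩
      · have h1 := GPC.lim_final d hd x q F inst C hmono hdv hcard hC hlim
        have h2 : x ≠ 1 / (d : ℝ) := fun h => hx (Or.inr ⟨1, by rw [pow_one]; exact h⟩)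
        have h3 : x ≠ 1 := fun h => hx (Or.inr ⟨0, by rw [pow_zero, div_one]; exact h⟩)
        rcases h1 with h1 | h1
        · exact lt_of_le_of_ne h1 h2
        · exact absurd h1 h3
      · by_contra hinf
        have h4 : {k | ∃ p n : ℕ, p.Prime ∧ N p ≤ n ∧ q k = p ^ n}.Infinite := hinf
        exact hx (hN x q F inst C hmono hdv hcard hC hlim (Nat.frequently_atTop_iff_infinite.2 h4))

end Pool.Agent.Results.MP_56e792_co.LimitSet
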