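import Mathlib
import Pool.Agent.Lib.MP_56e792_co.GP
import Pool.Agent.Lib.MP_56e792_co.S.Uni

set_option autoImplicit false

namespace Pool.Agent.Results.MP_56e792_co.SecondLargestCliques

open Pool.Agent.Lib.MP_56e792_co

/-- **Large maximal cliques of generalized Paley graphs of order `q ^ 2` are lines.**

(1) Let `q = p ^ e`, `m * d = q + 1`, `2 ≤ d`, and let `ρ` be such that no binomial coefficient
`(m / p ^ ρ).choose i`, `i ≤ m / p ^ ρ`, is divisible by `p` (for instance `m / p ^ ρ < p`).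
Every maximal clique of `GP(q ^ 2, d)` has at most `m + p ^ ρ` vertices, or `ρ ≠ 0` and it has at
most `q ^ (2 / 3)` vertices, or it has exactly `q` vertices and is a line of the affine plane
over the subfield of order `q`.

(2) For every `d ≥ 2` and `ε > 0`, for all large prime powers `q` with `d ∣ q + 1`: every
maximal clique of `GP(q ^ 2, d)` has at most `(1 / d + ε) q` vertices, or it has exactly `q`
vertices and is a line of the affine plane over the subfield of order `q`. -/
theorem result :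
    (∀ (p e d m ρ : ℕ), p.Prime → 1 ≤ e → 2 ≤ d → m * d = p ^ e + 1 →
      (m / p ^ ρ < p ∨ ∀ i : ℕ, i ≤ m / p ^ ρ → ¬ p ∣ (m / p ^ ρ).choose i) →
      ∀ (F : Type) (_ : Field F), Nat.card F = (p ^ e) ^ 2 → ∀ C : Finset F,
        Maximal (fun s : Finset F =>
            (SimpleGraph.fromRel (fun a b : F => ∃ z : F, z ^ d = a - b)).IsClique
              (s : Set F)) C →
          C.card ≤ m + p ^ ρ ∨ (ρ ≠ 0 ∧ C.card ^ 3 ≤ (p ^ e) ^ 2) ∨
            (C.card = p ^ e ∧ ∃ v w : F, w ≠ 0 ∧
              (C : Set F) = {u : F | ∃ t : F, t ^ p ^ e = t ∧ u = v + t * w})) ∧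
    (∀ d : ℕ, 2 ≤ d → ∀ ε : ℝ, 0 < ε → ∃ q₀ : ℕ, ∀ q ≥ q₀, d ∣ q + 1 →
      ∀ (F : Type) (_ : Field F), Nat.card F = q ^ 2 → ∀ C : Finset F,
        Maximal (fun s : Finset F =>
            (SimpleGraph.fromRel (fun a b : F => ∃ z : F, z ^ d = a - b)).IsClique
              (s : Set F)) C →
          (C.card : ℝ) ≤ (1 / (d : ℝ) + ε) * (q : ℝ) ∨
            (C.card = q ∧ ∃ v w : F, w ≠ 0 ∧
              (C : Set F) = {u : F | ∃ t : F, t ^ q = t ∧ u = v + t * w})) := by
  refine ⟨?_, ?_⟩
  · intro p e d m ρ hp he hd hmd hκ F _ hcard C hC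
    have hκ' : ∀ i : ℕ, i ≤ m / p ^ ρ → ¬ p ∣ (m / p ^ ρ).choose i := by
      rcases hκ with h | h
      · exact fun i hi => prime_choose hp h hi
      · exact h
    exact maximal_clique_dichotomy hp he rfl hcard hd hmd hκ' C hC
  · intro d hd ε hε
    exact GPC.uniform d hd ε hε

end Pool.Agent.Results.MP_56e792_co.SecondLargestCliques
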