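import Mathlib
import Pool.Agent.Lib.MP_56e792_co.S.SecC

set_option autoImplicit false

namespace Pool.Agent.Results.MP_56e792_co.SecondLargestExact

open Pool.Agent.Lib.MP_56e792_co

/-- **The second largest size of a maximal clique of `GP(q ^ 2, d)`, in a fixed characteristic.**

Let `p` be a prime, `d ≥ 2` and `ε > 0`. For all large `n` with `m * d = p ^ n + 1`, `q = p ^ n`:
put `M = m + 1` if `m` is even or `p = 2`, and `M = m` otherwise. Every maximal clique of
`GP(q ^ 2, d)` with more than `(1 / d ^ 2 + ε) q` vertices is a line of the affine plane over the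
subfield of order `q`, or it has exactly `M` vertices and is (a) the set of neighbours of a point
`a` on a line not containing `a`, together with `a` and, if `M = m + 1`, the conjugate of `a`; or
(b) the set of solutions `u` of `(u - o) ^ m = τ`, together with `o` if `M = m + 1`. There is a
maximal clique with exactly `M` vertices. -/
theorem result :
    ∀ p d : ℕ, p.Prime → 2 ≤ d → ∀ ε : ℝ, 0 < ε → ∃ n0 : ℕ, ∀ n ≥ n0, ∀ m M : ℕ,
      m * d = p ^ n + 1 →
      (((p = 2 ∨ Even m) ∧ M = m + 1) ∨ (¬ (p = 2 ∨ Even m) ∧ M = m)) →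
      ∀ (F : Type) (_ : Field F), Nat.card F = (p ^ n) ^ 2 →
      (∀ C : Finset F, Maximal (fun s : Finset F =>
          (SimpleGraph.fromRel (fun a b : F => ∃ z : F, z ^ d = a - b)).IsClique
            (s : Set F)) C →
        (C.card : ℝ) ≤ (1 / (d : ℝ) ^ 2 + ε) * (p : ℝ) ^ n ∨
          (C.card = p ^ n ∧ ∃ v w : F, w ≠ 0 ∧
            (C : Set F) = {u : F | ∃ t : F, t ^ p ^ n = t ∧ u = v + t * w}) ∨
          (C.card = M ∧
            ((∃ v w α : F, w ≠ 0 ∧ α ^ p ^ n ≠ α ∧
              (C : Set F) = {u : F | u = v + α * w ∨ (M = m + 1 ∧ u = v + α ^ p ^ n * w) ∨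
                ∃ t z : F, t ^ p ^ n = t ∧ u = v + t * w ∧ z ^ d = u - (v + α * w)}) ∨
            (∃ o τ : F, τ ≠ 0 ∧
              (C : Set F) = {u : F | (M = m + 1 ∧ u = o) ∨ (u - o) ^ m = τ})))) ∧
      ∃ C : Finset F, Maximal (fun s : Finset F =>
          (SimpleGraph.fromRel (fun a b : F => ∃ z : F, z ^ d = a - b)).IsClique
            (s : Set F)) C ∧ C.card = M := by
  intro p d hp hd ε hε
  exact GPC.second_full p d hp hd ε hε

end Pool.Agent.Results.MP_56e792_co.SecondLargestExact
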